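import Pool.Agent.helper50.PHN.Spec

set_option autoImplicit false

namespace Pool.Agent.PHN

open Finset

lemma NUM_le (k : ℕ) : k + 1 ≤ (RR k + 1) ^ 4 := by
  unfold RR
  have h1 := Nat.lt_succ_sqrt k
  have h2 := Nat.lt_succ_sqrt (Nat.sqrt k)
  have h3 : k + 1 ≤ (Nat.sqrt k + 1) * (Nat.sqrt k + 1) := h1
  have h4 : Nat.sqrt k + 1 ≤ (Nat.sqrt (Nat.sqrt k) + 1) * (Nat.sqrt (Nat.sqrt k) + 1) := h2
  calc k + 1 ≤ (Nat.sqrt k + 1) * (Nat.sqrt k + 1) := h3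
    _ ≤ ((Nat.sqrt (Nat.sqrt k) + 1) * (Nat.sqrt (Nat.sqrt k) + 1)) *
        ((Nat.sqrt (Nat.sqrt k) + 1) * (Nat.sqrt (Nat.sqrt k) + 1)) := Nat.mul_le_mul h4 h4
    _ = _ := by ring

lemma NUM_ge (k : ℕ) : RR k ^ 4 ≤ k := by
  unfold RR
  have h1 := Nat.sqrt_le k
  have h2 := Nat.sqrt_le (Nat.sqrt k)
  calc Nat.sqrt (Nat.sqrt k) ^ 4 = (Nat.sqrt (Nat.sqrt k) * Nat.sqrt (Nat.sqrt k)) *
        (Nat.sqrt (Nat.sqrt k) * Nat.sqrt (Nat.sqrt k)) := by ring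
    _ ≤ Nat.sqrt k * Nat.sqrt k := Nat.mul_le_mul h2 h2
    _ ≤ k := h1

lemma NUM_mono (k r : ℕ) (h : r ^ 4 ≤ k) : r ≤ RR k := by
  unfold RR
  rw [Nat.le_sqrt, Nat.le_sqrt]
  calc r * r * (r * r) = r ^ 4 := by ring
    _ ≤ k := h

lemma NUM_base (k N : ℕ) (hN : 2 ≤ N) (hk : k + 1 ≤ N ^ 4) :
    2 * (1 + (k + 1) ^ 8) + 1 ≤ N ^ 35 ∧ 1 + (k + 1) ^ 8 ≤ N ^ 33 := by
  have h1 : (k + 1) ^ 8 ≤ N ^ 32 := by
    calc (k + 1) ^ 8 ≤ (N ^ 4) ^ 8 := Nat.pow_le_pow_left hk 8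
      _ = N ^ 32 := by rw [← pow_mul]
  have h2 : 1 ≤ N ^ 32 := Nat.one_le_pow _ _ (by omega)
  have h3 : 8 ≤ N ^ 3 := by
    calc 8 = 2 ^ 3 := by norm_num
      _ ≤ N ^ 3 := Nat.pow_le_pow_left hN 3
  constructor
  · calc 2 * (1 + (k + 1) ^ 8) + 1 ≤ 8 * N ^ 32 := by omega
      _ ≤ N ^ 3 * N ^ 32 := Nat.mul_le_mul_right _ h3
      _ = N ^ 35 := by rw [← pow_add]
  · calc 1 + (k + 1) ^ 8 ≤ 2 * N ^ 32 := by omega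
      _ ≤ N * N ^ 32 := Nat.mul_le_mul_right _ hN
      _ = N ^ 33 := by ring

lemma NUM_one (k r : ℕ) (hr : 1 ≤ r) (hk : k + 1 ≤ (r + 1) ^ 4) :
    2 ^ r * ((2 * (1 + (k + 1) ^ 8) + 1) ^ (2 * r) * (r + 1) ^ 2 *
      (1 + (k + 1) ^ 8) ^ ((r + 1) * (r + 1))) * (k + 1) ^ 2 ≤
    2 ^ (35 * (r + 1) ^ 3 + 70 * (r + 1) ^ 2 + 11 * (r + 1)) := by
  obtain ⟨hb, hc⟩ := NUM_base k (r + 1) (by omega) hk
  have hc' : 1 + (k + 1) ^ 8 ≤ (r + 1) ^ 35 :=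
    hc.trans (Nat.pow_le_pow_right (by omega) (by omega))
  have hN : r + 1 ≤ 2 ^ (r + 1) := Nat.lt_two_pow_self.le
  obtain ⟨N, hNdef⟩ : ∃ N, N = r + 1 := ⟨_, rfl⟩
  rw [← hNdef] at hb hc' hN hk ⊢
  have hrN : r ≤ N := by omega
  have hN1 : 1 ≤ N := by omega
  have a1 : 2 ^ r ≤ 2 ^ N := Nat.pow_le_pow_right (by norm_num) hrN
  have a2 : (2 * (1 + (k + 1) ^ 8) + 1) ^ (2 * r) ≤ (N ^ 35) ^ (2 * N) :=
    (Nat.pow_le_pow_left hb _).trans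
      (Nat.pow_le_pow_right (Nat.one_le_pow _ _ hN1) (by omega))
  have a3 : (1 + (k + 1) ^ 8) ^ (N * N) ≤ (N ^ 35) ^ (N * N) := Nat.pow_le_pow_left hc' _
  have a4 : (k + 1) ^ 2 ≤ (N ^ 4) ^ 2 := Nat.pow_le_pow_left hk 2
  calc 2 ^ r * ((2 * (1 + (k + 1) ^ 8) + 1) ^ (2 * r) * N ^ 2 * (1 + (k + 1) ^ 8) ^ (N * N)) *
        (k + 1) ^ 2
      ≤ 2 ^ N * ((N ^ 35) ^ (2 * N) * N ^ 2 * (N ^ 35) ^ (N * N)) * (N ^ 4) ^ 2 :=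
        Nat.mul_le_mul (Nat.mul_le_mul a1 (Nat.mul_le_mul (Nat.mul_le_mul_right _ a2) a3)) a4
    _ = 2 ^ N * N ^ (35 * (2 * N) + 2 + 35 * (N * N) + 4 * 2) := by
        rw [← pow_mul, ← pow_mul, ← pow_mul, ← pow_add, ← pow_add, mul_assoc, ← pow_add]
    _ ≤ 2 ^ N * (2 ^ N) ^ (35 * (2 * N) + 2 + 35 * (N * N) + 4 * 2) :=
        Nat.mul_le_mul_left _ (Nat.pow_le_pow_left hN _)
    _ = 2 ^ (35 * N ^ 3 + 70 * N ^ 2 + 11 * N) := by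
        rw [← pow_mul, ← pow_add]
        congr 1
        ring

lemma NUM_exp (r : ℕ) (hr : 4000 ≤ r) :
    100 * (35 * (r + 1) ^ 3 + 70 * (r + 1) ^ 2 + 11 * (r + 1)) ≤ r ^ 4 := by
  obtain ⟨t, rfl⟩ := Nat.exists_eq_add_of_le hr
  nlinarith [Nat.zero_le t, Nat.zero_le (t ^ 2), Nat.zero_le (t ^ 3), Nat.zero_le (t ^ 4)]

lemma NUM_pow : ∃ r₁ : ℕ, ∀ r ≥ r₁, (r + 1) ^ 350 ≤ 2 ^ r := by
  have h := tendsto_pow_const_div_const_pow_of_one_lt 350 (one_lt_two : (1 : ℝ) < 2)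
  have h1 : ∀ᶠ n : ℕ in Filter.atTop, (n : ℝ) ^ 350 / 2 ^ n < 1 / 2 :=
    h.eventually (gt_mem_nhds (by norm_num))
  obtain ⟨r₁, hr₁⟩ := Filter.eventually_atTop.1 h1
  refine ⟨r₁, fun r hr => ?_⟩
  have h2 := hr₁ (r + 1) (by omega)
  rw [div_lt_iff₀ (by positivity), pow_succ (2 : ℝ) r] at h2
  have h3 : ((r + 1 : ℕ) : ℝ) ^ 350 ≤ (2 : ℝ) ^ r := by linarith
  exact_mod_cast h3

theorem NUM : NUM_stmt := by
  obtain ⟨r₁, hr₁⟩ := NUM_pow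
  refine ⟨(max r₁ 4000) ^ 4, fun k hk => ?_⟩
  have hr := NUM_mono k _ hk
  have hr1 : r₁ ≤ RR k := (le_max_left _ _).trans hr
  have hr2 : 4000 ≤ RR k := (le_max_right _ _).trans hr
  have hge := NUM_ge k
  have hle := NUM_le k
  have hpow := hr₁ _ hr1
  constructor
  · have h1 := NUM_one k (RR k) (by omega) hle
    have h2 := NUM_exp (RR k) hr2
    have h3 : (2 : ℝ) ^ (RR k : ℝ) * ((2 * (1 + ((k : ℝ) + 1) ^ 8) + 1) ^ (2 * RR k) * ((RR k : ℝ) + 1) ^ 2 *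
        (1 + ((k : ℝ) + 1) ^ 8) ^ ((RR k + 1) * (RR k + 1))) * ((k : ℝ) + 1) ^ 2 ≤
        (2 : ℝ) ^ (35 * (RR k + 1) ^ 3 + 70 * (RR k + 1) ^ 2 + 11 * (RR k + 1)) := by
      rw [Real.rpow_natCast]
      exact_mod_cast h1
    refine h3.trans ?_
    rw [← Real.rpow_natCast]
    refine Real.rpow_le_rpow_of_exponent_le (by norm_num) ?_
    rw [le_div_iff₀ (by norm_num)]
    have h4 := h2.trans hge
    have h5 : ((100 * (35 * (RR k + 1) ^ 3 + 70 * (RR k + 1) ^ 2 + 11 * (RR k + 1)) : ℕ) : ℝ) ≤ (k : ℝ) := by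
      exact_mod_cast h4
    push_cast at h5 ⊢
    linarith
  · have hb := (NUM_base k (RR k + 1) (by omega) hle).2
    have h1 : 4 * (1 + (k + 1) ^ 8) ^ 5 * (k + 1) ^ 2 ≤ (RR k + 1) ^ 175 := by
      calc 4 * (1 + (k + 1) ^ 8) ^ 5 * (k + 1) ^ 2
          ≤ (RR k + 1) ^ 2 * ((RR k + 1) ^ 33) ^ 5 * ((RR k + 1) ^ 4) ^ 2 := by
            refine Nat.mul_le_mul (Nat.mul_le_mul ?_ (Nat.pow_le_pow_left hb 5))
              (Nat.pow_le_pow_left hle 2)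
            calc 4 = 2 ^ 2 := by norm_num
              _ ≤ (RR k + 1) ^ 2 := Nat.pow_le_pow_left (by omega) 2
        _ = (RR k + 1) ^ 175 := by
            rw [← pow_mul, ← pow_mul, ← pow_add, ← pow_add]
    have h2 : 4 * (1 + ((k : ℝ) + 1) ^ 8) ^ 5 * ((k : ℝ) + 1) ^ 2 ≤ ((RR k : ℝ) + 1) ^ 175 := by
      exact_mod_cast h1
    refine h2.trans ?_
    have h3 : (((RR k : ℝ) + 1) ^ 175) ^ 2 ≤ ((2 : ℝ) ^ ((RR k : ℝ) / 2)) ^ 2 := by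
      have h4 : ((2 : ℝ) ^ ((RR k : ℝ) / 2)) ^ 2 = 2 ^ (RR k) := by
        rw [← Real.rpow_natCast, ← Real.rpow_mul (by norm_num), ← Real.rpow_natCast]
        congr 1
        push_cast
        ring
      rw [h4, ← pow_mul]
      exact_mod_cast hpow
    exact (pow_le_pow_iff_left₀ (by positivity) (by positivity) (by norm_num)).1 h3

end Pool.Agent.PHN
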