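import Pool.Agent.helper50.PHN.Spec

set_option autoImplicit false

namespace Pool.Agent.PHN

open Finset Pool.Agent.Lib.PrimeSums

lemma SMV_t (k p : ℕ) (hp : p.Prime) (hlt : p < 2 ^ (k + 1)) :
    (p : ℝ) ^ (1 / (2 * ((k : ℝ) + 1)) - 1) ≤ Real.sqrt 2 * (1 / (p : ℝ)) := by
  have hk : (0 : ℝ) < (k : ℝ) + 1 := by positivity
  have hp0 : (0 : ℝ) < p := by exact_mod_cast hp.pos
  rw [Real.rpow_sub hp0, Real.rpow_one]
  have h1 : (p : ℝ) ^ (1 / (2 * ((k : ℝ) + 1))) ≤ Real.sqrt 2 := by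
    have h2 : (p : ℝ) ≤ (2 : ℝ) ^ ((k : ℝ) + 1) := by
      have h3 : (p : ℝ) ≤ (2 : ℝ) ^ (k + 1) := by exact_mod_cast hlt.le
      have h4 : (2 : ℝ) ^ ((k : ℝ) + 1) = (2 : ℝ) ^ (k + 1) := by
        rw [← Real.rpow_natCast]
        push_cast
        rfl
      rw [h4]
      exact h3
    have h5 : (p : ℝ) ^ (1 / (2 * ((k : ℝ) + 1))) ≤
        ((2 : ℝ) ^ ((k : ℝ) + 1)) ^ (1 / (2 * ((k : ℝ) + 1))) :=
      Real.rpow_le_rpow hp0.le h2 (by positivity)
    rw [← Real.rpow_mul (by norm_num)] at h5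
    have h6 : ((k : ℝ) + 1) * (1 / (2 * ((k : ℝ) + 1))) = 1 / 2 := by field_simp
    rw [h6, ← Real.sqrt_eq_rpow] at h5
    exact h5
  rw [mul_one_div]
  exact div_le_div_of_nonneg_right h1 hp0.le

theorem SMV : SMV_stmt := by
  refine ⟨Real.exp 24, Real.one_le_exp (by norm_num), fun k V hV => ?_⟩
  have hk : (0 : ℝ) < (k : ℝ) + 1 := by positivity
  have hk1 : (1 : ℝ) ≤ (k : ℝ) + 1 := by linarith [(Nat.cast_nonneg k : (0 : ℝ) ≤ k)]
  have hη1 : 1 / (2 * ((k : ℝ) + 1)) ≤ 1 / 2 :=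
    one_div_le_one_div_of_le (by norm_num) (by linarith)
  have h1 := sum_smooth_le (σ := 1 - 1 / (2 * ((k : ℝ) + 1))) (by linarith) (2 ^ (k + 1)) V hV
  have e : -(1 - 1 / (2 * ((k : ℝ) + 1))) = 1 / (2 * ((k : ℝ) + 1)) - 1 := by ring
  rw [e] at h1
  refine h1.trans ?_
  have hs2 : Real.sqrt 2 ≤ 3 / 2 := by
    rw [show (3 / 2 : ℝ) = Real.sqrt ((3 / 2) ^ 2) from (Real.sqrt_sq (by norm_num)).symm]
    exact Real.sqrt_le_sqrt (by norm_num)
  have hs0 : 0 ≤ Real.sqrt 2 := Real.sqrt_nonneg 2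
  have h2 : ∀ p ∈ Nat.primesBelow (2 ^ (k + 1)), (1 - (p : ℝ) ^ (1 / (2 * ((k : ℝ) + 1)) - 1))⁻¹ ≤
      Real.exp (4 * Real.sqrt 2 * (1 / (p : ℝ))) := by
    intro p hp
    have hpr := Nat.prime_of_mem_primesBelow hp
    have hlt := Nat.lt_of_mem_primesBelow hp
    have h3 := SMV_t k p hpr hlt
    have hp2 : (2 : ℝ) ≤ p := by exact_mod_cast hpr.two_le
    have h4 : Real.sqrt 2 * (1 / (p : ℝ)) ≤ 3 / 4 := by
      have h5 : 1 / (p : ℝ) ≤ 1 / 2 := one_div_le_one_div_of_le (by norm_num) hp2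
      calc Real.sqrt 2 * (1 / (p : ℝ)) ≤ (3 / 2) * (1 / 2) :=
            mul_le_mul hs2 h5 (by positivity) (by norm_num)
        _ = 3 / 4 := by norm_num
    have h6 := inv_one_sub_le_exp (t := (p : ℝ) ^ (1 / (2 * ((k : ℝ) + 1)) - 1)) (by positivity)
      (h3.trans h4)
    refine h6.trans (Real.exp_le_exp.2 ?_)
    linarith
  refine (prod_le_prod (fun p hp => ?_) h2).trans ?_
  · have hpr := Nat.prime_of_mem_primesBelow hp
    have hlt := Nat.lt_of_mem_primesBelow hp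
    have h3 := SMV_t k p hpr hlt
    have hp2 : (2 : ℝ) ≤ p := by exact_mod_cast hpr.two_le
    have h5 : 1 / (p : ℝ) ≤ 1 / 2 := one_div_le_one_div_of_le (by norm_num) hp2
    have h4 : Real.sqrt 2 * (1 / (p : ℝ)) ≤ 3 / 4 := by
      calc Real.sqrt 2 * (1 / (p : ℝ)) ≤ (3 / 2) * (1 / 2) :=
            mul_le_mul hs2 h5 (by positivity) (by norm_num)
        _ = 3 / 4 := by norm_num
    rw [inv_nonneg]
    linarith
  · rw [← Real.exp_sum, ← mul_sum]
    have h7 : ∑ p ∈ Nat.primesBelow (2 ^ (k + 1)), 1 / (p : ℝ) ≤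
        ∑ p ∈ Nat.primesLE (2 ^ (k + 1)), 1 / (p : ℝ) := by
      refine sum_le_sum_of_subset_of_nonneg (fun p hp => ?_) (fun p _ _ => by positivity)
      rw [Nat.mem_primesLE]
      exact ⟨(Nat.lt_of_mem_primesBelow hp).le, Nat.prime_of_mem_primesBelow hp⟩
    have h8 := sum_inv_le (2 ^ (k + 1)) (by
      calc 2 = 2 ^ 1 := (pow_one 2).symm
        _ ≤ 2 ^ (k + 1) := Nat.pow_le_pow_right (by norm_num) (by omega))
    have h9 : Real.log (Real.log ((2 ^ (k + 1) : ℕ) : ℝ)) ≤ Real.log ((k : ℝ) + 1) := by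
      push_cast
      rw [Real.log_pow]
      push_cast
      have hl2 : 0 < Real.log 2 := Real.log_pos (by norm_num)
      have hl3 : Real.log 2 ≤ 1 := by linarith [Real.log_two_lt_d9]
      refine Real.log_le_log (by positivity) ?_
      nlinarith
    have h10 : 0 ≤ Real.log ((k : ℝ) + 1) := Real.log_nonneg hk1
    have h11 : 4 * Real.sqrt 2 * ∑ p ∈ Nat.primesBelow (2 ^ (k + 1)), 1 / (p : ℝ) ≤
        24 + 6 * Real.log ((k : ℝ) + 1) := by
      have h12 : ∑ p ∈ Nat.primesBelow (2 ^ (k + 1)), 1 / (p : ℝ) ≤ Real.log ((k : ℝ) + 1) + 4 := by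
        linarith
      calc 4 * Real.sqrt 2 * ∑ p ∈ Nat.primesBelow (2 ^ (k + 1)), 1 / (p : ℝ)
          ≤ 4 * Real.sqrt 2 * (Real.log ((k : ℝ) + 1) + 4) :=
            mul_le_mul_of_nonneg_left h12 (by positivity)
        _ ≤ 6 * (Real.log ((k : ℝ) + 1) + 4) :=
            mul_le_mul_of_nonneg_right (by linarith) (by linarith)
        _ = _ := by ring
    refine (Real.exp_le_exp.2 h11).trans ?_
    rw [Real.exp_add]
    refine mul_le_mul_of_nonneg_left ?_ (Real.exp_pos _).le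
    have h13 : Real.exp (6 * Real.log ((k : ℝ) + 1)) = ((k : ℝ) + 1) ^ 6 := by
      have h14 : 6 * Real.log ((k : ℝ) + 1) = Real.log (((k : ℝ) + 1) ^ 6) := by
        rw [Real.log_pow]
        push_cast
        rfl
      rw [h14, Real.exp_log (by positivity)]
    rw [h13]

end Pool.Agent.PHN
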